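import Mathlib
import Pool.Agent.H394R3.ET.Asm3

/-!
# MP_be4568_nt, Q1: fixed-sign intervals for products of Selberg-class error terms do not always exist

`PropA δ σ P` is property `(A_δ)` of the problem for the product `P`, stated with open subintervals (which makes it
weaker than the version with closed subintervals, hence its failure stronger). `Q1` is the assertion of Q1, with `Sel`
the structure of an element of the Selberg class with all its data. We show that `Q1` is false: there are entire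
`F₁, F₂ = F₁ G` of the Selberg class, with real coefficients and integer degrees `d₁ < d₂`, such that for arbitrarily
large `T` the product `E_{f₁}(x) E_{f₂}(x)` is positive on `[T, 2T]` outside a set of measure at most `ε T`.
-/

set_option autoImplicit false

open MeasureTheory

namespace Pool.Agent.Results.MP_be4568_nt.FixedSignFails

open Pool.Agent.H13R3.EM (Sel)
open Pool.Agent.H394R3.ET (AS Ad)

/-- Property `(A_δ)`: there are `c, C, T₀ > 0` such that for all `T ≥ T₀` and both signs `e` the interval `[T, 2T]`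
contains at least `T^(1-δ)` pairwise disjoint open subintervals `(u_i, v_i)`, each of length at least `C T^δ`, such that
`e P(x) > c T^σ` for all `x` in each of them. -/
def PropA (δ σ : ℝ) (P : ℝ → ℝ) : Prop := ∃ c C T₀ : ℝ, 0 < c ∧ 0 < C ∧ 0 < T₀ ∧
  ∀ T : ℝ, T₀ ≤ T → ∀ e : ℝ, (e = 1 ∨ e = -1) → ∃ (N : ℕ) (u v : Fin N → ℝ),
    T ^ (1 - δ) ≤ N ∧ (∀ i, T ≤ u i ∧ v i ≤ 2 * T ∧ C * T ^ δ ≤ v i - u i) ∧
    (∀ i j, i ≠ j → Disjoint (Set.Ioo (u i) (v i)) (Set.Ioo (u j) (v j))) ∧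
    ∀ i, ∀ x ∈ Set.Ioo (u i) (v i), c * T ^ σ < e * P x

/-- Q1 of the problem: for all `k ≥ 2`, integers `2 ≤ d_1 < ... < d_k` and elements `F_j` of the Selberg class with
real coefficients and degree `d_j`, there is `δ` in `(0, 1)` such that `(A_δ)` holds for `P(x) = ∏ E_{f_j}(x)`,
`σ = ∑ (d_j - 1) / (2 d_j)`. -/
def Q1 : Prop := ∀ (k : ℕ) (d : Fin k → ℕ) (F : Fin k → Sel), 2 ≤ k → StrictMono d → (∀ j, 2 ≤ d j) →
  (∀ j, (F j).deg = (d j : ℝ)) → (∀ j, ∀ n : ℕ, 1 ≤ n → ((F j).a n).im = 0) →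
  ∃ δ : ℝ, 0 < δ ∧ δ < 1 ∧
    PropA δ (∑ j, ((d j : ℝ) - 1) / (2 * (d j : ℝ))) (fun x => (∏ j, (F j).err x).re)

/-- The quantitative form: positivity of the product of the two error terms off a small set, for arbitrarily
large `T`. -/
theorem strong : ∃ (F₁ F₂ : Sel) (d₁ d₂ : ℕ) (a₁ a₂ : ℕ → ℝ), 2 ≤ d₁ ∧ d₁ < d₂ ∧ F₁.deg = (d₁ : ℝ) ∧
    F₂.deg = (d₂ : ℝ) ∧ F₁.m0 = 0 ∧ F₂.m0 = 0 ∧ (∀ n : ℕ, 1 ≤ n → F₁.a n = ((a₁ n : ℝ) : ℂ)) ∧
    (∀ n : ℕ, 1 ≤ n → F₂.a n = ((a₂ n : ℝ) : ℂ)) ∧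
    (∀ x : ℝ, F₁.err x = ((AS a₁ x : ℝ) : ℂ)) ∧ (∀ x : ℝ, F₂.err x = ((AS a₂ x : ℝ) : ℂ)) ∧
    ∀ ε T₀ : ℝ, 0 < ε → ∃ T : ℝ, T₀ ≤ T ∧ 0 < T ∧
      volume {x : ℝ | T ≤ x ∧ x ≤ 2 * T ∧ AS a₁ x * AS a₂ x ≤ 0} ≤ ENNReal.ofReal (ε * T) :=
  Pool.Agent.H394R3.ET.strong

theorem result : ¬ Q1 := by
  intro hQ
  obtain ⟨F₁, F₂, d₁, d₂, a₁, a₂, hd1, hd2, hF1, hF2, _, _, ha1, ha2, he1, he2, hmain⟩ := strong
  obtain ⟨δ, _, _, hA⟩ := hQ 2 ![d₁, d₂] ![F₁, F₂] le_rfl
    (by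
      intro i j hij
      fin_cases i <;> fin_cases j
      · exact absurd hij (lt_irrefl _)
      · exact hd2
      · exact absurd hij (by decide)
      · exact absurd hij (lt_irrefl _))
    (by
      intro j
      fin_cases j
      · exact hd1
      · exact (hd1.trans hd2.le))
    (by
      intro j
      fin_cases j
      · exact hF1
      · exact hF2)
    (by
      intro j n hn
      fin_cases j
      · show (F₁.a n).im = 0
        rw [ha1 n hn, Complex.ofReal_im]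
      · show (F₂.a n).im = 0
        rw [ha2 n hn, Complex.ofReal_im])
  have hP : (fun x => (∏ j, ((![F₁, F₂] : Fin 2 → Sel) j).err x).re) = fun x => AS a₁ x * AS a₂ x := by
    funext x
    rw [Fin.prod_univ_two]
    show (F₁.err x * F₂.err x).re = _
    rw [he1, he2, ← Complex.ofReal_mul, Complex.ofReal_re]
  rw [hP] at hA
  exact Pool.Agent.H992R3.ET.taskFin (fun x => AS a₁ x * AS a₂ x) hmain δ _ hA

end Pool.Agent.Results.MP_be4568_nt.FixedSignFails
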